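import Pool.Agent.COV.StmtsA

set_option autoImplicit false

/-!
# Row GNC of squad COV (MP_160b6c_nt)
-/

namespace Pool.Agent.COV.H15

open Polynomial

/-- the coefficients of a sextic -/
theorem coeff_sext {R : Type} [CommRing R] (a : Fin 7 → R) (i : Fin 7) :
    (TTC.sext a).coeff (6 - (i : ℕ)) = a i := by
  fin_cases i <;> simp [TTC.sext, coeff_X, coeff_C, coeff_X_pow]

/-- row GNC -/
theorem gnc (hPD : GpdStmt) (hCP : GcpStmt) (hWR : GwrStmt) (hID : GidStmt) (hPO : GpoStmt)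
    (hDI : GdiStmt) (hDR : GdrStmt) (hSQ : GsqStmt) : GncStmt := by
  intro L _ _ _ a ha n hcov
  haveI : CharZero L := algebraRat.charZero L
  obtain ⟨hdeg, hsq⟩ := hSQ L a ha
  obtain ⟨j, P, Q, V, hj0, hj1, hP, hQ, hco, hwr, hV, hE⟩ := hCP L n (TTC.sext a) hsq hcov
  obtain ⟨s, hs0, hs1, hsV⟩ := hWR L (TTC.sext a) P Q V j hdeg hsq hco hwr hV hj0 hj1 hE
  obtain ⟨e, δ, hb, hδ⟩ := hDR L a ![j, s.coeff 0, s.coeff 1] ha
  have hbj : ∀ i, δ i j = 0 := fun i => hb i 0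
  have hb0 : ∀ i, δ i (s.coeff 0) = 0 := fun i => hb i 1
  have hb1 : ∀ i, δ i (s.coeff 1) = 0 := fun i => hb i 2
  have hps : ∀ i, pd (δ i) s = 0 := by
    intro i
    ext m
    rw [(hPD L (δ i) s s).1 m, coeff_zero]
    rcases m with _ | _ | m
    · exact hb0 i
    · exact hb1 i
    · have : s.coeff (m + 1 + 1) = 0 := coeff_eq_zero_of_natDegree_lt (by omega)
      rw [this]
      exact map_zero (δ i)
  have hDdeg : ∀ i, (pd (δ i) (TTC.sext a)).natDegree ≤ 6 := by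
    intro i
    rw [natDegree_le_iff_coeff_eq_zero]
    intro m hm
    rw [(hPD L (δ i) (TTC.sext a) (TTC.sext a)).1 m]
    have : (TTC.sext a).coeff m = 0 := coeff_eq_zero_of_natDegree_lt (by omega)
    rw [this]
    exact map_zero (δ i)
  have hR : ∀ i, ∃ R : L[X], R.natDegree ≤ 3 ∧ s * pd (δ i) (TTC.sext a) =
      R * derivative (TTC.sext a) - 2 * derivative R * (TTC.sext a) := by
    intro i
    exact hPO L (TTC.sext a) _ V s _ hdeg hsq hV hs1 (hDdeg i)
      (hID L (δ i) (TTC.sext a) P Q V s j hV hE hsV (hbj i) (hps i))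
  choose R hR3 hRE using hR
  obtain ⟨c, hc, hsum⟩ := hDI L (TTC.sext a) s (fun i => pd (δ i) (TTC.sext a)) R hdeg hsq hs0 hs1
    (fun i => ⟨hDdeg i, hR3 i, hRE i⟩)
  apply hc
  funext m
  have h1 := congrArg (fun p : L[X] => p.coeff (6 - (e m : ℕ))) hsum
  simp only [finset_sum_coeff, coeff_C_mul, coeff_zero] at h1
  have h2 : ∀ i, (pd (δ i) (TTC.sext a)).coeff (6 - (e m : ℕ)) = if i = m then 1 else 0 := by
    intro i
    rw [(hPD L (δ i) (TTC.sext a) (TTC.sext a)).1, coeff_sext]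
    exact hδ i m
  simp only [h2, mul_ite, mul_one, mul_zero, Finset.sum_ite_eq', Finset.mem_univ, if_true] at h1
  exact h1

end Pool.Agent.COV.H15
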